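import Mathlib
import Pool.Agent.H33G.Val
import Pool.Agent.H33G.Sym

namespace Pool.Agent.Results.MP_9e03a6_co.OrderSeven

open Complex Pool.Agent.H33G

/-- a line of the configuration does not contain the centre -/
lemma no_central {P : Set ℂ} {L : Set (Set ℂ)} (h : IsConfig P L) {c : ℂ} {x : Fin 3 → ℂ}
    (hx0 : ∀ i, x i ≠ 0) (hcov : ∀ p ∈ P, ∃ i m, p = c + om m * x i) :
    ∀ l ∈ L, c ∉ l := by
  classical
  intro l hl hcl
  have hPf : P.Finite := Set.finite_of_ncard_ne_zero (by rw [h.card_points]; norm_num)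
  have h4 := h.four_points l hl
  choose! f m hfm using hcov
  have hinj : Set.InjOn f {p | p ∈ P ∧ p ∈ l} := by
    intro p hp q hq hpq
    by_contra hne
    have h1 := hfm p hp.1
    have h2 := hfm q hq.1
    rw [← hpq] at h2
    have hpc : p ≠ c := by
      intro h0
      rw [h1] at h0
      have : om (m p) * x (f p) = 0 := by linear_combination h0
      exact (mul_ne_zero (om_ne _) (hx0 _)) this
    have hline := line_eq (h.line l hl) hcl hp.2 hpc.symm
    have hql := hq.2
    rw [hline] at hql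
    obtain ⟨t, ht⟩ := hql
    have h3 : om (m q) * x (f p) = (t : ℂ) * om (m p) * x (f p) := by
      have e1 : p - c = om (m p) * x (f p) := by linear_combination h1
      have e2 : q - c = om (m q) * x (f p) := by linear_combination h2
      rw [← e2, mul_assoc, ← e1, ht]; ring
    have h4 : om (m q) = (t : ℂ) * om (m p) := mul_right_cancel₀ (hx0 _) h3
    have h5 : om (m q - m p) = (t : ℂ) := by
      rw [sub_eq_add_neg, om_add, h4]
      have := om_neg_mul (m p)
      linear_combination (t : ℂ) * this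
    have h6 : S (m q - m p) = 0 := by unfold S; rw [h5, ofReal_im]
    by_cases hm : m q - m p = 0
    · apply hne
      rw [h1, h2, sub_eq_zero.mp hm]
    · exact S_ne _ hm h6
  have h5 : (f '' {p | p ∈ P ∧ p ∈ l}).ncard = 4 := by
    rw [hinj.ncard_image, h4]
  have h6 : (f '' {p | p ∈ P ∧ p ∈ l}).ncard ≤ (Set.univ : Set (Fin 3)).ncard :=
    Set.ncard_le_ncard (Set.subset_univ _) Set.finite_univ
  rw [h5, Set.ncard_univ, Nat.card_eq_fintype_card, Fintype.card_fin] at h6
  omega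

lemma row_sum {P : Set ℂ} {L : Set (Set ℂ)} (h : IsConfig P L) {c : ℂ} {x n : Fin 3 → ℂ}
    (hn0 : ∀ i, n i ≠ 0) (hn : ∀ i j m, i ≠ j → n i ≠ om m * n j)
    (hxP : ∀ i m, c + om m * x i ∈ P)
    (hnL : ∀ i m, ell c (om m * n i) ∈ L)
    (hcovL : ∀ l ∈ L, ∃ i m, l = ell c (om m * n i)) (i : Fin 3) :
    ∑ j, cnt x n i j = 4 := by
  classical
  have h4 := h.four_lines (c + om 0 * x i) (hxP i 0)
  have hmem : ∀ j m, c + om 0 * x i ∈ ell c (om (-m) * n j) ↔ Inc x n i j m := by
    intro j m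
    rw [mem_ell, add_sub_cancel_left, om_zero, one_mul, map_mul, om_conj, neg_neg]
    unfold Inc
    rw [show x i * (om m * (starRingEnd ℂ) (n j)) = om m * (x i * (starRingEnd ℂ) (n j)) by ring]
  have himg : {l | l ∈ L ∧ c + om 0 * x i ∈ l}
      = (fun q : Fin 3 × ZMod 7 => ell c (om (-q.2) * n q.1)) ''
        {q : Fin 3 × ZMod 7 | Inc x n i q.1 q.2} := by
    ext l
    constructor
    · rintro ⟨hl, hpl⟩
      obtain ⟨j, m, rfl⟩ := hcovL l hl
      refine ⟨(j, -m), ?_, ?_⟩
      · show Inc x n i j (-m)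
        rw [← hmem, neg_neg]; exact hpl
      · show ell c (om (- -m) * n j) = _
        rw [neg_neg]
    · rintro ⟨⟨j, m⟩, hq, rfl⟩
      exact ⟨hnL j (-m), (hmem j m).mpr hq⟩
  rw [himg, Set.ncard_image_of_injective, ncard_prod] at h4
  · exact h4
  · rintro ⟨j, m⟩ ⟨j', m'⟩ hjj
    have h1 := ell_inj (mul_ne_zero (om_ne _) (hn0 _)) hjj
    obtain ⟨rfl, h2⟩ := orb_eq hn0 hn h1
    have h2' : -m = -m' := h2
    rw [neg_inj] at h2'
    rw [h2']

lemma col_sum {P : Set ℂ} {L : Set (Set ℂ)} (h : IsConfig P L) {c : ℂ} {x n : Fin 3 → ℂ}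
    (hx0 : ∀ i, x i ≠ 0) (hx : ∀ i j m, i ≠ j → x i ≠ om m * x j)
    (hxP : ∀ i m, c + om m * x i ∈ P)
    (hnL : ∀ i m, ell c (om m * n i) ∈ L)
    (hcovP : ∀ p ∈ P, ∃ i m, p = c + om m * x i) (j : Fin 3) :
    ∑ i, cnt x n i j = 4 := by
  classical
  have h4 := h.four_points (ell c (om 0 * n j)) (hnL j 0)
  have hmem : ∀ i m, c + om m * x i ∈ ell c (om 0 * n j) ↔ Inc x n i j m := by
    intro i m
    rw [mem_ell, add_sub_cancel_left, om_zero, one_mul, mul_assoc]
    rfl
  have himg : {p | p ∈ P ∧ p ∈ ell c (om 0 * n j)}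
      = (fun q : Fin 3 × ZMod 7 => c + om q.2 * x q.1) ''
        {q : Fin 3 × ZMod 7 | Inc x n q.1 j q.2} := by
    ext p
    constructor
    · rintro ⟨hp, hpl⟩
      obtain ⟨i, m, rfl⟩ := hcovP p hp
      exact ⟨(i, m), (hmem i m).mp hpl, rfl⟩
    · rintro ⟨⟨i, m⟩, hq, rfl⟩
      exact ⟨hxP i m, (hmem i m).mpr hq⟩
  rw [himg, Set.ncard_image_of_injective, ncard_prod (fun i m => Inc x n i j m)] at h4
  · exact h4
  · rintro ⟨i, m⟩ ⟨i', m'⟩ hjj
    have h1 : om m * x i = om m' * x i' := by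
      have : c + om m * x i = c + om m' * x i' := hjj
      linear_combination this
    obtain ⟨rfl, rfl⟩ := orb_eq hx0 hx h1
    rfl

/-- `cos (2π/7)`, `cos (4π/7)`, `cos (6π/7)` -/
noncomputable def gx (i : Fin 3) : ℝ := Real.cos (2 * Real.pi * (i.val + 1) / 7)

/-- the seventh roots of unity `exp (2πik/7)` -/
noncomputable def ge (k : ZMod 7) : ℂ := exp (2 * Real.pi * I * k.val / 7)

/-- `dl 0 1 = 3`, `dl 0 2 = 2`, `dl 1 2 = 1` (and symmetric) -/
def dl (i j : Fin 3) : ZMod 7 := ((4 - i.val - j.val : ℕ) : ZMod 7)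

lemma gx0 : gx 0 = C 1 := by
  rw [C_cos, show (1 : ZMod 7).val = 1 by decide]
  unfold gx
  norm_num

lemma gx1 : gx 1 = C 2 := by
  rw [C_cos, show (2 : ZMod 7).val = 2 by decide]
  unfold gx
  norm_num

lemma gx2 : gx 2 = C 3 := by
  rw [C_cos, show (3 : ZMod 7).val = 3 by decide]
  unfold gx
  norm_num

/-- A geometric `(21_4)` configuration which is invariant under a rotation of order seven is
similar to the Grünbaum–Rigby configuration. -/
theorem result (P : Set ℂ) (L : Set (Set ℂ)) (h : IsConfig P L) (c ζ : ℂ) (hζ : orderOf ζ = 7)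
    (hP : (fun z => c + ζ * (z - c)) '' P = P)
    (hL : (fun l : Set ℂ => (fun z => c + ζ * (z - c)) '' l) '' L = L) :
    ∃ (κ : ℂ) (pt : Fin 3 × ZMod 7 ≃ P) (ln : Fin 3 × ZMod 7 ≃ L), κ ≠ 0 ∧
      (∀ i k, (pt (i, k) : ℂ) = c + κ * (gx i * ge k)) ∧
      (∀ j l, (ln (j, l) : Set ℂ) = {z | 8 * gx j * ((z - c) / (κ * ge l)).re = 1}) ∧
      ∀ i k j l, ((pt (i, k) : ℂ) ∈ (ln (j, l) : Set ℂ)) ↔
        i ≠ j ∧ (k - l = dl i j ∨ l - k = dl i j) := by
  classical
  have hg : ∀ z, (fun z => c + ζ * (z - c)) z = c + ζ * (z - c) := fun z => rfl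
  have hP' : ∀ p ∈ P, (fun z => c + ζ * (z - c)) p ∈ P := fun p hp => hP ▸ ⟨p, hp, rfl⟩
  have hL' : ∀ l ∈ L, (fun z => c + ζ * (z - c)) '' l ∈ L := fun l hl => by
    have : (fun z => c + ζ * (z - c)) '' l
        ∈ (fun l : Set ℂ => (fun z => c + ζ * (z - c)) '' l) '' L := ⟨l, hl, rfl⟩
    rwa [hL] at this
  have hc : c ∉ P := (rot_prime h hg hP' hL' (by norm_num : Nat.Prime 7) hζ).1
  have hprim : IsPrimitiveRoot ζ 7 := hζ ▸ IsPrimitiveRoot.orderOf ζ
  obtain ⟨k, _, hk⟩ := hprim.eq_pow_of_pow_eq_one xi_pow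
  have hfun : ((fun z => c + ζ * (z - c))^[k] : ℂ → ℂ) = fun z => c + xi * (z - c) := by
    funext z
    rw [rot_iterate hg, hk]
  have hPx : ∀ p ∈ P, c + xi * (p - c) ∈ P := by
    intro p hp
    have := iterate_mem hP' k p hp
    rw [hfun] at this
    exact this
  have hLx : ∀ l ∈ L, (fun z => c + xi * (z - c)) '' l ∈ L := by
    intro l hl
    have := iterate_image hL' k l hl
    rw [hfun] at this
    exact this
  -- the orbits on the points
  have hP0 : ({z | c + z ∈ P} : Set ℂ).ncard = 21 := by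
    have h1 : P = (fun z => c + z) '' {z | c + z ∈ P} := by
      ext p
      constructor
      · intro hp
        exact ⟨p - c, by show c + (p - c) ∈ P; rwa [add_sub_cancel], by simp⟩
      · rintro ⟨z, hz, rfl⟩
        exact hz
    rw [← h.card_points]
    conv_rhs => rw [h1]
    rw [Set.ncard_image_of_injective _ (add_right_injective c)]
  obtain ⟨x, hxS, hxcov, hx⟩ := orbits hP0 (by show c + 0 ∉ P; rwa [add_zero])
    (fun z hz => by
      have := hPx (c + z) hz
      rw [add_sub_cancel_left] at this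
      exact this)
  have hx0 : ∀ i, x i ≠ 0 := by
    intro i h0
    have h1 : c + x i ∈ P := hxS i
    rw [h0, add_zero] at h1
    exact hc h1
  have hxP : ∀ i m, c + om m * x i ∈ P := by
    intro i m
    exact om_mem (S := {z | c + z ∈ P}) (fun z hz => by
      have := hPx (c + z) hz
      rw [add_sub_cancel_left] at this
      exact this) m (x i) (hxS i)
  have hcovP : ∀ p ∈ P, ∃ i m, p = c + om m * x i := by
    intro p hp
    obtain ⟨i, m, hm⟩ := hxcov (p - c) (by show c + (p - c) ∈ P; rwa [add_sub_cancel])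
    exact ⟨i, m, by linear_combination hm⟩
  -- the orbits on the lines
  have hcen := no_central h hx0 hcovP
  have hLell : ∀ l ∈ L, ∃ n : ℂ, n ≠ 0 ∧ l = ell c n := by
    intro l hl
    obtain ⟨a, b, hb, hab⟩ := h.line l hl
    exact ell_of_line hb hab (hcen l hl)
  have hLi : L = (fun n => ell c n) '' {n | n ≠ 0 ∧ ell c n ∈ L} := by
    ext l
    constructor
    · intro hl
      obtain ⟨n, hn, rfl⟩ := hLell l hl
      exact ⟨n, ⟨hn, hl⟩, rfl⟩
    · rintro ⟨n, hn, rfl⟩
      exact hn.2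
  have hN0 : ({n | n ≠ 0 ∧ ell c n ∈ L} : Set ℂ).ncard = 21 := by
    rw [← h.card_lines]
    conv_rhs => rw [hLi]
    apply (Set.InjOn.ncard_image _).symm
    intro n hn n' _ hnn
    exact ell_inj hn.1 hnn
  have hxi0 : xi ≠ 0 := by
    intro h0
    have := xi_pow
    rw [h0] at this
    norm_num at this
  have hNcl : ∀ z ∈ ({n | n ≠ 0 ∧ ell c n ∈ L} : Set ℂ), xi * z ∈
      ({n | n ≠ 0 ∧ ell c n ∈ L} : Set ℂ) := by
    rintro z ⟨hz0, hz⟩
    refine ⟨mul_ne_zero hxi0 hz0, ?_⟩
    rw [← ell_rot]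
    exact hLx _ hz
  obtain ⟨n, hnS, hncov, hn⟩ := orbits hN0 (by rintro ⟨h1, _⟩; exact h1 rfl) hNcl
  have hn0 : ∀ i, n i ≠ 0 := fun i => (hnS i).1
  have hnL : ∀ i m, ell c (om m * n i) ∈ L := fun i m => (om_mem hNcl m (n i) (hnS i)).2
  have hcovL : ∀ l ∈ L, ∃ i m, l = ell c (om m * n i) := by
    intro l hl
    obtain ⟨w, hw, rfl⟩ := hLell l hl
    obtain ⟨i, m, hm⟩ := hncov w ⟨hw, hl⟩
    exact ⟨i, m, by rw [hm]⟩
  have hrow := fun i => row_sum h hn0 hn hxP hnL hcovL i
  have hcol := fun j => col_sum h hx0 hx hxP hnL hcovP j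
  obtain ⟨s, hs0, hs2⟩ := caseA_form hx hn hrow hcol
  obtain ⟨D, u, v, hInc, d1, d2, d3, d4, d5, d6, d7⟩ := caseA_struct (x := x)
    (p := fun j => n (s j)) hx (fun i j m hij => hn _ _ _ (fun h0 => hij (s.injective h0)))
    hs0 hs2
  obtain ⟨t, ht⟩ := relabel D d1 d2 d3 d4 d5 d6 d7
  have hD0 : ∀ i j, i ≠ j → D i j ≠ 0 := by
    intro i j hij
    rcases d7 i j hij with h0 | h0 | h0 <;> rw [h0] <;> decide
  have hval : ∀ i j, i ≠ j → (om (u (t i)) * x (t i)) *
      (starRingEnd ℂ) (om (v (t j)) * n (s (t j))) = (((C (Pool.Agent.H33G.dl i j))⁻¹ : ℝ) : ℂ) := by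
    intro i j hij
    have hij' : t i ≠ t j := fun h0 => hij (t.injective h0)
    have h1 := val_of (x := x) (p := fun j => n (s j)) (i := t i) (j := t j)
      (a := u (t i) - v (t j)) (hD0 _ _ hij') (fun m => by
        rw [hInc]
        exact ⟨fun h0 => h0.2, fun h0 => ⟨hij', h0⟩⟩)
    rw [ht i j hij] at h1
    rw [← h1, map_mul, om_conj, sub_eq_add_neg, om_add]
    ring
  obtain ⟨κ, hκ, y0, y1, y2, r0, r1, r2⟩ := shape (Y := fun i => om (u (t i)) * x (t i))
    (R := fun j => (starRingEnd ℂ) (om (v (t j)) * n (s (t j)))) hval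
  have hY : ∀ i, om (u (t i)) * x (t i) = κ * gx i := by
    intro i
    fin_cases i
    · show om (u (t 0)) * x (t 0) = κ * gx 0
      rw [gx0]; exact y0
    · show om (u (t 1)) * x (t 1) = κ * gx 1
      rw [gx1]; exact y1
    · show om (u (t 2)) * x (t 2) = κ * gx 2
      rw [gx2]; exact y2
  have hR : ∀ j, κ * (starRingEnd ℂ) (om (v (t j)) * n (s (t j))) = 8 * gx j := by
    intro j
    fin_cases j
    · show κ * (starRingEnd ℂ) (om (v (t 0)) * n (s (t 0))) = 8 * gx 0
      rw [gx0]; exact r0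
    · show κ * (starRingEnd ℂ) (om (v (t 1)) * n (s (t 1))) = 8 * gx 1
      rw [gx1]; exact r1
    · show κ * (starRingEnd ℂ) (om (v (t 2)) * n (s (t 2))) = 8 * gx 2
      rw [gx2]; exact r2
  have hptm : ∀ q : Fin 3 × ZMod 7, c + om (q.2 + u (t q.1)) * x (t q.1) ∈ P :=
    fun q => hxP _ _
  have hlnm : ∀ q : Fin 3 × ZMod 7, ell c (om (q.2 + v (t q.1)) * n (s (t q.1))) ∈ L :=
    fun q => hnL _ _
  have hbp : Function.Bijective (fun q : Fin 3 × ZMod 7 =>
      (⟨c + om (q.2 + u (t q.1)) * x (t q.1), hptm q⟩ : P)) := by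
    constructor
    · rintro ⟨i, a⟩ ⟨j, b⟩ hq
      have h1 := congrArg Subtype.val hq
      have h2 : om (a + u (t i)) * x (t i) = om (b + u (t j)) * x (t j) := by
        have : c + om (a + u (t i)) * x (t i) = c + om (b + u (t j)) * x (t j) := h1
        linear_combination this
      obtain ⟨h3, h4⟩ := orb_eq hx0 hx h2
      have h5 := t.injective h3
      subst h5
      rw [add_left_inj] at h4
      rw [h4]
    · rintro ⟨p, hp⟩
      obtain ⟨i, m, rfl⟩ := hcovP p hp
      refine ⟨(t.symm i, m - u i), ?_⟩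
      apply Subtype.ext
      show c + om (m - u i + u (t (t.symm i))) * x (t (t.symm i)) = _
      rw [Equiv.apply_symm_apply, sub_add_cancel]
  have hbl : Function.Bijective (fun q : Fin 3 × ZMod 7 =>
      (⟨ell c (om (q.2 + v (t q.1)) * n (s (t q.1))), hlnm q⟩ : L)) := by
    constructor
    · rintro ⟨i, a⟩ ⟨j, b⟩ hq
      have h1 := congrArg Subtype.val hq
      have h2 : om (a + v (t i)) * n (s (t i)) = om (b + v (t j)) * n (s (t j)) :=
        ell_inj (mul_ne_zero (om_ne _) (hn0 _)) h1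
      obtain ⟨h3, h4⟩ := orb_eq hn0 hn h2
      have h5 := t.injective (s.injective h3)
      subst h5
      rw [add_left_inj] at h4
      rw [h4]
    · rintro ⟨l, hl⟩
      obtain ⟨i, m, rfl⟩ := hcovL l hl
      refine ⟨(t.symm (s.symm i), m - v (s.symm i)), ?_⟩
      apply Subtype.ext
      show ell c (om (m - v (s.symm i) + v (t (t.symm (s.symm i))))
        * n (s (t (t.symm (s.symm i))))) = _
      rw [Equiv.apply_symm_apply, Equiv.apply_symm_apply, sub_add_cancel]
  refine ⟨κ, Equiv.ofBijective _ hbp, Equiv.ofBijective _ hbl, hκ, ?_, ?_, ?_⟩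
  · intro i k
    show c + om (k + u (t i)) * x (t i) = _
    rw [om_add, mul_assoc, hY, ge, om_exp]
    ring
  · intro j l
    show ell c (om (l + v (t j)) * n (s (t j))) = _
    ext z
    rw [mem_ell]
    have h1 : (z - c) * (starRingEnd ℂ) (om (l + v (t j)) * n (s (t j)))
        = ((8 * gx j : ℝ) : ℂ) * ((z - c) / (κ * ge l)) := by
      have h2 : (ge l) = om l := (om_exp l).symm
      have h3 := om_neg_mul l
      have h4 := om_ne l
      rw [om_add, mul_assoc, map_mul, om_conj, h2]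
      push_cast
      rw [← hR j]
      field_simp
      linear_combination ((z - c) * (starRingEnd ℂ) (om (v (t j)) * n (s (t j)))) * h3
    rw [h1, re_ofReal_mul]
    rfl
  intro i k j l
  show c + om (k + u (t i)) * x (t i) ∈ ell c (om (l + v (t j)) * n (s (t j))) ↔ _
  have h1 : c + om (k + u (t i)) * x (t i) ∈ ell c (om (l + v (t j)) * n (s (t j)))
      ↔ Inc x (fun j => n (s j)) (t i) (t j) (k + u (t i) - (l + v (t j))) := by
    rw [mem_ell, add_sub_cancel_left, map_mul, om_conj]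
    unfold Inc
    rw [sub_eq_add_neg (k + u (t i)), om_add (k + u (t i)) (-(l + v (t j)))]
    rw [show om (k + u (t i)) * x (t i) * (om (-(l + v (t j))) * (starRingEnd ℂ) (n (s (t j))))
      = om (k + u (t i)) * om (-(l + v (t j))) * (x (t i) * (starRingEnd ℂ) (n (s (t j)))) by ring]
  rw [h1, hInc]
  constructor
  · rintro ⟨hne, hm⟩
    have hij : i ≠ j := fun h0 => hne (by rw [h0])
    refine ⟨hij, ?_⟩
    rw [show D (t i) (t j) = dl i j from ht i j hij] at hm
    rcases hm with hm | hm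
    · left; linear_combination hm
    · right; linear_combination -hm
  · rintro ⟨hij, hm⟩
    refine ⟨fun h0 => hij (t.injective h0), ?_⟩
    rw [show D (t i) (t j) = dl i j from ht i j hij]
    rcases hm with hm | hm
    · left; linear_combination hm
    · right; linear_combination -hm

end Pool.Agent.Results.MP_9e03a6_co.OrderSeven
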