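import Pool.Agent.ST79.Main

/-!
# Symmetries of the geometric `(21_4)` configurations

The plane is `ℂ`; the definitions are in `Pool/Agent/ST79/Defs.lean`, the proof is in `Pool/Agent/ST79/Main.lean`.
-/

open scoped ComplexConjugate
open Classical
open Pool.Agent.ST79

namespace Pool.Agent.Results.MP_9e03a6_co.SymmetryTypes

/-- **Symmetries of the geometric `(21_4)` configurations.** -/
theorem result (P : Finset ℂ) (L : Finset (Set ℂ)) (h : IsConfig 21 4 P L) :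
    ∃ (c : ℂ) (m : ℕ), (m = 1 ∨ m = 3 ∨ m = 7) ∧
      (∀ g : ℂ ≃ᵢ ℂ, (Preserves P L g ∧ Direct g) ↔
        ∃ w : ℂ, w ^ m = 1 ∧ ∀ z, g z = rho c w z) ∧
      (∀ w : ℂ, w ^ m = 1 → w ≠ 1 →
        (∀ p ∈ P, rho c w p ≠ p) ∧ (∀ l ∈ L, rho c w '' l ≠ l)) ∧
      (∀ p ∈ P, (P.filter (fun q => ∃ w : ℂ, w ^ m = 1 ∧ q = rho c w p)).card = m) ∧
      (∀ l ∈ L, (L.filter (fun l' => ∃ w : ℂ, w ^ m = 1 ∧ l' = rho c w '' l)).card = m) ∧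
      (m ≠ 1 → (L.filter (fun l => c ∈ l)).card = 0 ∨
        (m = 3 ∧ (L.filter (fun l => c ∈ l)).card = 3)) ∧
      (m = 7 →
        (∃ (d : ℂ) (r : ℝ), ‖d‖ = 1 ∧ r ≠ 0 ∧
          (∀ z, z ∈ P ↔ ∃ (w : ℂ) (j : ℕ), w ^ 7 = 1 ∧ 1 ≤ j ∧ j ≤ 3 ∧
            z = c + ((r * Real.cos (2 * Real.pi * j / 7) : ℝ) : ℂ) * (w * d)) ∧
          (∀ l, l ∈ L ↔ ∃ (w : ℂ) (i j : ℕ), w ^ 7 = 1 ∧ 1 ≤ i ∧ i < j ∧ j ≤ 3 ∧
            l = mirror (c + ((r * Real.cos (2 * Real.pi * i / 7) *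
              Real.cos (2 * Real.pi * j / 7) : ℝ) : ℂ) * (w * d)) (Complex.I * (w * d)))) ∨
        ((∀ g : ℂ ≃ᵢ ℂ, Preserves P L g → Direct g) ∧
          (∀ p ∈ P, ∀ q ∈ P, ‖p - c‖ = ‖q - c‖ → ∃ w : ℂ, w ^ 7 = 1 ∧ q = rho c w p) ∧
          ∀ l ∈ L, ∀ p ∈ P,
            ((P.filter (fun q => ∃ w : ℂ, w ^ 7 = 1 ∧ q = rho c w p)).filter
              (fun q => q ∈ l)).card = 1 ∨
            ((P.filter (fun q => ∃ w : ℂ, w ^ 7 = 1 ∧ q = rho c w p)).filter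
              (fun q => q ∈ l)).card = 2)) ∧
      (∀ g : ℂ ≃ᵢ ℂ, Preserves P L g → ¬ Direct g →
        ∃ d : ℂ, ‖d‖ = 1 ∧ (∀ z, g z = refl c d z) ∧ mirror c d ∉ L ∧
          (∀ l ∈ L, (∃ s : ℝ, l = mirror (c + s * d) (Complex.I * d)) →
            ∀ p ∈ P, p ∈ l → p ∉ mirror c d) ∧
          ∃ a b : ℕ, (P.filter (fun p => p ∈ mirror c d)).card = a ∧
            (L.filter (fun l => ∃ s : ℝ, l = mirror (c + s * d) (Complex.I * d))).card = b ∧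
            ((a = 3 ∧ b = 3) ∨
              (m ≠ 7 ∧ ((a = 1 ∧ b = 1) ∨ (a = 1 ∧ b = 3) ∨ (a = 3 ∧ b = 1))) ∨
              (m = 1 ∧ ((a = 1 ∧ b = 5) ∨ (a = 5 ∧ b = 1))))) :=
  Pool.Agent.ST79.main P L h

end Pool.Agent.Results.MP_9e03a6_co.SymmetryTypes
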